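import Mathlib
import Pool.Agent.H.MP_84e5ad_an.B

set_option autoImplicit false

namespace Pool.Agent.Results.MP_84e5ad_an.Indep

open Finset NNReal

noncomputable def emb (𝕜 : Type) [RCLike 𝕜] : 𝕜 →+* ℂ where
  toFun a := ⟨RCLike.re a, RCLike.im a⟩
  map_one' := by apply Complex.ext <;> simp
  map_mul' a b := by apply Complex.ext <;> simp
  map_zero' := by apply Complex.ext <;> simp
  map_add' a b := by apply Complex.ext <;> simp

theorem norm_emb (𝕜 : Type) [RCLike 𝕜] (a : 𝕜) : ‖emb 𝕜 a‖ = ‖a‖ := by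
  rw [← sq_eq_sq₀ (norm_nonneg _) (norm_nonneg _), Complex.sq_norm,
    Complex.normSq_apply, RCLike.norm_sq_eq_def]
  rfl

theorem result (𝕜 : Type) [RCLike 𝕜] (X : Type) [NormedAddCommGroup X] [NormedSpace 𝕜 X]
    [CompleteSpace X] [Nontrivial X] (T : ℝ≥0 → X →L[𝕜] X)
    (h0 : ∀ x, T 0 x = x) (hadd : ∀ s t x, T (s + t) x = T s (T t x))
    (hc : ∀ x, Continuous fun t => T t x) (z : X) (hz : Dense (Set.range fun t => T t z)) :
    LinearIndepOn 𝕜 id (Set.range fun t => T t z) := by
  classical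
  rw [linearIndepOn_iff']
  intro s a hs hsum
  by_contra hne
  push Not at hne
  let s' := s.filter fun v => a v ≠ 0
  have hτ : ∀ v : s', ∃ t, T t z = v.1 := fun v => hs (mem_filter.1 v.2).1
  choose τ hτ using hτ
  have : Nonempty s' := let ⟨v, h1, h2⟩ := hne; ⟨⟨v, mem_filter.2 ⟨h1, h2⟩⟩⟩
  obtain ⟨i0, hi0⟩ := Finite.exists_min τ
  obtain ⟨i1, hi1⟩ := Finite.exists_max τ
  have rel : ∀ y, ∑ i : s', a i • T (τ i) y = 0 := by
    refine fun y => hz.induction ?_ (isClosed_eq (by fun_prop) continuous_const) y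
    rintro _ ⟨r, rfl⟩
    have e : ∑ i : s', a i • T (τ i) z = 0 := by
      simp only [hτ]
      rw [sum_coe_sort s' fun v => a v • v]
      exact (sum_filter_of_ne (p := fun v => a v ≠ 0) (f := fun v => a v • v)
        fun v _ h e => h (by simp [e])).trans hsum
    have := congrArg (T r) e
    simp only [map_sum, map_smul, map_zero, ← hadd] at this
    simpa only [← hadd, add_comm] using this
  obtain ⟨K, hK⟩ := banach_steinhaus (g := fun t : Set.Icc 0 (τ i1) => T t) fun x => by
    obtain ⟨C, hC⟩ := isCompact_Icc.exists_bound_of_continuousOn (hc x).continuousOn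
      (s := Set.Icc 0 (τ i1))
    exact ⟨C, fun t => hC t t.2⟩
  have le : ∀ i, ((τ i0 : ℝ)) ≤ τ i := fun i => hi0 i
  have zero : ∀ y, T (τ i0 + 1) y = 0 := by
    intro y
    refine SeparatingDual.eq_zero_of_forall_dual_eq_zero (R := 𝕜) fun l => ?_
    have ec : Continuous (emb 𝕜) :=
      AddMonoidHomClass.continuous_of_bound (emb 𝕜) 1 fun x => by simp [norm_emb]
    have := Pool.Agent.H.MP_84e5ad_an.core (fun i : s' => (τ i : ℝ) - τ i0) (fun i j e => by
        have : τ i = τ j := NNReal.eq (by simpa using e)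
        exact Subtype.ext (by rw [← hτ, ← hτ, this]))
      (fun i => sub_nonneg.2 (le i)) (fun i => emb 𝕜 (a i)) i0 (sub_self _)
      (by simpa using (mem_filter.1 i0.2).2)
      (fun y r => emb 𝕜 (l (T (τ i0 + r.toNNReal) y)))
      (fun y => ec.comp (l.continuous.comp ((hc y).comp
        (continuous_const.add continuous_real_toNNReal))))
      (fun x y r => by simp only [map_sub]) (‖l‖ * K) (fun y i r hr => ?_)
      (fun r y => T r.toNNReal y) (fun r y r' h1 h2 => ?_) (fun y r hr => ?_) z (by simp [h0])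
      (hz.mono ?_) y
    · simpa using this
    · rw [norm_emb, mul_assoc]
      refine (l.le_opNorm _).trans (mul_le_mul_of_nonneg_left ?_ (norm_nonneg _))
      refine ((T _).le_opNorm _).trans (mul_le_mul_of_nonneg_right
        (hK ⟨_, bot_le, ?_⟩) (norm_nonneg _))
      have h1 : (τ i : ℝ) ≤ τ i1 := hi1 i
      rw [← NNReal.coe_le_coe, NNReal.coe_add, Real.coe_toNNReal _ hr.1]
      linarith [hr.2]
    · simp only [← hadd, Real.toNNReal_add h2 h1, add_assoc]
    · have e : ∀ i : s', τ i0 + (r + ((τ i : ℝ) - τ i0)).toNNReal = τ i + r.toNNReal := by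
        intro i
        apply NNReal.eq
        rw [NNReal.coe_add, NNReal.coe_add, Real.coe_toNNReal _ hr,
          Real.coe_toNNReal _ (by linarith [le i])]
        ring
      have := congrArg (fun x => emb 𝕜 (l x)) (rel (T r.toNNReal y))
      simpa only [map_sum, map_smul, smul_eq_mul, map_mul, map_zero, e, ← hadd] using this
    · rintro _ ⟨r, rfl⟩
      exact ⟨r, r.2, by simp⟩
  obtain ⟨C, hC⟩ := isCompact_Icc.exists_bound_of_continuousOn (hc z).continuousOn
    (s := Set.Icc 0 (τ i0 + 1))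
  obtain ⟨y, hy⟩ := NormedSpace.exists_lt_norm 𝕜 X C
  refine absurd hy (not_lt.2 (hz.induction ?_ (isClosed_le continuous_norm continuous_const) y))
  rintro _ ⟨r, rfl⟩
  rcases le_total r (τ i0 + 1) with h | h
  · exact hC r ⟨bot_le, h⟩
  · obtain ⟨d, rfl⟩ := exists_add_of_le h
    have := hC _ ⟨bot_le, le_rfl⟩
    rw [zero] at this
    simpa only [hadd (τ i0 + 1) d, zero] using this

end Pool.Agent.Results.MP_84e5ad_an.Indep
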